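import Pool.Agent.N358.DR.Power

/-!
# Digits of algebraic numbers with poles at the unramified primes above `p`

No hypothesis is assumed.  Let `x` be a real algebraic number, `b ≥ 2` a base and `p` a prime number
which does not divide `b`.  Consider a relation `q_0 g_k + … + q_m g_{k+m} = e` with integer
coefficients, and put `B = q_0 + q_1 b + … + q_m b^m` if `e = 0` and
`B = (b - 1) (q_0 + q_1 b + … + q_m b^m)` otherwise; suppose `B ≠ 0`.  If every prime of `ℚ(x)`
above `p` is ramified over `ℚ` or a pole of `B x`, then for every expansion `x = ∑ g_k b^{-k}` with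
bounded integers `g_k` the relation fails for at least `c N^δ` of the `k ≤ N`, with `c, δ > 0`.

With `g_k = 0` (`B = 1`): every expansion with bounded digits has at least `c N^δ` nonzero digits.
With `g_k - g_{k+1} = 0` (`B = 1 - b`): number of digit changes.

The case where all primes above `p` are poles goes back to Kaneko; the case where all of them are
ramified is the starting result `DigitRelations`.  The mixed case is new; it holds for instance for
the real roots of `p X^3 + X^2 + 2 X + 1`, for which `p = P_1^2 P_2` and only `P_2` is a pole.  In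
general it is enough that a primitive polynomial `F` of `x` satisfies `F ≡ c (X - a)^k` modulo `p`
with `p ∤ c`, `k ≠ 1` and `p^2 ∤ F(a)`, and that `p ∤ B`.

Proof.  The numbers which are at most polynomially less sparse than `B x` in base `b` form a ring
`R`.  It contains all algebraic integers of `ℚ(x)`, because `z ∈ R` if `p z ∈ R` and `z` is
integral, and even `z / p`, if some power of `z` is divisible by `p` (Frobenius modulo `p`, carries
vanish with few exceptions). The common denominators of `B x` and of such a `z / p`, where `z`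
generates the radical of `p` modulo `p`, are in all primes above `p`, so `R` contains a number
`N / u` with `p ∤ N` and `u` nilpotent modulo `p`.  For such a number the polynomial identity
satisfied by the approximations contradicts itself modulo `p` wherever its carries vanish.
-/

set_option autoImplicit false

namespace Pool.Agent.Results.MP_7e9a3a_nt.PolesAtUnramifiedPrimes

open Finset IntermediateField NumberField

/-- the number `B` of the relation `q_0 g_k + … + q_m g_{k+m} = e`: the value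
`q_0 + q_1 b + … + q_m b^m`, times `b - 1` if `e ≠ 0` -/
def factor (b m : ℕ) (q : ℕ → ℤ) (e : ℤ) : ℤ :=
  (if e = 0 then 1 else (b : ℤ) - 1) * ∑ j ∈ range (m + 1), q j * (b : ℤ) ^ j

/-- the number of `k` in `[1, n]` for which the relation `q_0 g_k + … + q_m g_{k+m} = e` fails -/
def failures (m : ℕ) (q : ℕ → ℤ) (e : ℤ) (g : ℕ → ℤ) (n : ℕ) : ℕ :=
  ((Icc 1 n).filter (fun k => ∑ j ∈ range (m + 1), q j * g (k + j) ≠ e)).card

/-- The result. The alternative for the primes `P` above `p` is: `p ∈ P ^ 2` (ramification), or no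
multiple of `B x` by an algebraic integer outside of `P` is an algebraic integer (pole). -/
theorem result (b : ℕ) (hb : 2 ≤ b) (p : ℕ) (hp : p.Prime) (hpb : ¬ p ∣ b) (x : ℝ)
    (hx : IsAlgebraic ℚ x) (m : ℕ) (q : ℕ → ℤ) (e : ℤ) (hB : factor b m q e ≠ 0)
    (hP : ∀ P : Ideal (𝓞 ℚ⟮x⟯), P.IsPrime → (p : 𝓞 ℚ⟮x⟯) ∈ P → (p : 𝓞 ℚ⟮x⟯) ∈ P ^ 2 ∨
      ∀ a : 𝓞 ℚ⟮x⟯, a ∉ P → ¬ IsIntegral ℤ (((a : ℚ⟮x⟯) : ℝ) * ((factor b m q e : ℝ) * x)))
    (G : ℤ) :
    ∃ c δ : ℝ, 0 < c ∧ 0 < δ ∧ ∃ n₀ : ℕ, ∀ g : ℕ → ℤ, (∀ k, |g k| ≤ G) →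
      HasSum (fun k : ℕ => (g k : ℝ) / (b : ℝ) ^ k) x → ∀ n : ℕ, n₀ ≤ n →
        c * (n : ℝ) ^ δ ≤ (failures m q e g n : ℝ) := by
  have hev : (Pool.Agent.N358.DR.relPoly m q).eval (b : ℤ) =
      ∑ j ∈ range (m + 1), q j * (b : ℤ) ^ j := by
    unfold Pool.Agent.N358.DR.relPoly
    rw [Polynomial.eval_finsetSum]
    simp
  have key : ∀ f h : ℤ, ((b : ℤ) - 1) * f = h * e → h = (if e = 0 then 1 else (b : ℤ) - 1) →
      ∃ c δ : ℝ, 0 < c ∧ 0 < δ ∧ ∃ n₀ : ℕ, ∀ g : ℕ → ℤ, (∀ k, |g k| ≤ G) →
      HasSum (fun k : ℕ => (g k : ℝ) / (b : ℝ) ^ k) x → ∀ n : ℕ, n₀ ≤ n →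
        c * (n : ℝ) ^ δ ≤ (failures m q e g n : ℝ) := by
    intro f h hf hh
    have hfac : h * (Pool.Agent.N358.DR.relPoly m q).eval (b : ℤ) = factor b m q e := by
      rw [hev, hh]; rfl
    obtain ⟨c, δ, hc, hδ, n₀, h0⟩ := Pool.Agent.N358.DR.power_main b hb p hp hpb x hx G
      (Pool.Agent.N358.DR.relPoly m q) e f h hf (by rw [hfac]; exact hB) (by rw [hfac]; exact hP)
    refine ⟨c, δ, hc, hδ, n₀, fun g hg hs n hn => ?_⟩
    have h1 := h0 g hg hs n hn
    rw [Pool.Agent.N358.DR.fails_relPoly] at h1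
    exact h1
  by_cases he : e = 0
  · exact key 0 1 (by rw [he]; ring) (by rw [if_pos he])
  · exact key e ((b : ℤ) - 1) (by ring) (by rw [if_neg he])

end Pool.Agent.Results.MP_7e9a3a_nt.PolesAtUnramifiedPrimes
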